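import Mathlib

/-!
# The poset `P` of MP_8301b4 need not be ccc

The space is the tree of all nonempty finite sequences of pairs `(β, i)` of elements of `ω₁` whose
first coordinates are strictly decreasing; a neighbourhood of a node `s` consists of `s` and of all
proper extensions of `s` whose next entry lies outside a given finite set.
-/

namespace Pool.Agent.Results.MP_8301b4_gt.PosetNotCCC

open Set Topology Filter
open scoped Cardinal Ordinal

universe u

/-! ### The notions in the question -/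

/-- Non-isolated points of a subset `S` of `X` (in the subspace topology). -/
def nonisolated {X : Type u} [TopologicalSpace X] (S : Set X) : Set X :=
  {x | x ∈ S ∧ ∀ U : Set X, IsOpen U → x ∈ U → ∃ y ∈ S, y ∈ U ∧ y ≠ x}

/-- The iterated derivatives `X^(α)`: `X^(0) = X`, `X^(α+1)` is the set of non-isolated points of
`X^(α)`, and intersections are taken at limit steps. -/
noncomputable def derivative (X : Type u) [TopologicalSpace X] (α : Ordinal.{u}) : Set X :=
  Ordinal.limitRecOn α (univ : Set X) (fun _ S => nonisolated S)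
    (fun l _ ih => ⋂ (β : Ordinal.{u}) (h : β < l), ih β h)

/-- `x` has scattering level `α`. -/
def InLevel {X : Type u} [TopologicalSpace X] (x : X) (α : Ordinal.{u}) : Prop :=
  x ∈ derivative X α ∧ x ∉ derivative X (α + 1)

/-- Scattered: each nonempty subset has an isolated point. -/
def Scattered (X : Type u) [TopologicalSpace X] : Prop :=
  ∀ S : Set X, S.Nonempty → ∃ x ∈ S, x ∉ nonisolated S

/-- `α` is the least ordinal with `X^(α) = ∅`. -/
def HasHeight (X : Type u) [TopologicalSpace X] (α : Ordinal.{u}) : Prop :=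
  derivative X α = ∅ ∧ ∀ β < α, derivative X β ≠ ∅

/-- `X` embeds into `C_p(K)` for a compact Hausdorff space `K`: the map `φ` is a homeomorphic
embedding of `X` into the product of lines indexed by `K`, with values in the set of continuous
functions. -/
def EberleinGrothendieck (X : Type u) [TopologicalSpace X] : Prop :=
  ∃ (K : Type u) (_ : TopologicalSpace K), CompactSpace K ∧ T2Space K ∧
    ∃ φ : X → (K → ℝ), (∀ x, Continuous (φ x)) ∧ IsEmbedding φ

/-- Each open cover has a point-countable open refinement. -/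
def MetaLindelof (X : Type u) [TopologicalSpace X] : Prop :=
  ∀ 𝒰 : Set (Set X), (∀ U ∈ 𝒰, IsOpen U) → ⋃₀ 𝒰 = univ →
    ∃ 𝒱 : Set (Set X), (∀ V ∈ 𝒱, IsOpen V) ∧ ⋃₀ 𝒱 = univ ∧ (∀ V ∈ 𝒱, ∃ U ∈ 𝒰, V ⊆ U) ∧
      ∀ x, {V | V ∈ 𝒱 ∧ x ∈ V}.Countable

/-- Each subspace is meta-Lindelöf. -/
def HereditarilyMetaLindelof (X : Type u) [TopologicalSpace X] : Prop :=
  ∀ Y : Set X, MetaLindelof Y

/-- `U` and `𝒱` are choices as in the question: `U x` is an open neighbourhood of `x` that meets
the scattering level of `x` only in `x`, and `𝒱` is a point-countable open refinement of the cover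
formed by the sets `U x`. -/
structure Admissible {X : Type u} [TopologicalSpace X] (U : X → Set X) (𝒱 : Set (Set X)) :
    Prop where
  U_open : ∀ x, IsOpen (U x)
  U_mem : ∀ x, x ∈ U x
  U_level : ∀ x α, InLevel x α → ∀ y ∈ U x, InLevel y α → y = x
  V_open : ∀ V ∈ 𝒱, IsOpen V
  V_cover : ⋃₀ 𝒱 = univ
  V_refine : ∀ V ∈ 𝒱, ∃ x, V ⊆ U x
  V_countable : ∀ x, {V | V ∈ 𝒱 ∧ x ∈ V}.Countable

/-- `V_x`, the union of all members of `𝒱` that contain `x`. -/
def star {X : Type u} (𝒱 : Set (Set X)) (x : X) : Set X := ⋃₀ {V | V ∈ 𝒱 ∧ x ∈ V}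

/-- The set `P` of conditions: finite sets `p` with `V_x ∩ p = {x}` for all `x ∈ p`. -/
def Cond {X : Type u} (𝒱 : Set (Set X)) : Set (Finset X) :=
  {p | ∀ x ∈ p, star 𝒱 x ∩ (p : Set X) = {x}}

/-- Compatibility of conditions (`r` extends `p` when `p ⊆ r`). -/
def Compat {X : Type u} (𝒱 : Set (Set X)) (p q : Finset X) : Prop :=
  ∃ r ∈ Cond 𝒱, p ⊆ r ∧ q ⊆ r

/-- The countable chain condition for `P`. -/
def CCC {X : Type u} (𝒱 : Set (Set X)) : Prop :=
  ∀ A : Set (Finset X), A ⊆ Cond 𝒱 → (∀ p ∈ A, ∀ q ∈ A, p ≠ q → ¬ Compat 𝒱 p q) →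
    A.Countable

/-! ### The derivatives -/

lemma derivative_zero (X : Type u) [TopologicalSpace X] : derivative X 0 = univ := by
  simp [derivative]

lemma derivative_succ (X : Type u) [TopologicalSpace X] (α : Ordinal.{u}) :
    derivative X (α + 1) = nonisolated (derivative X α) := by
  simp only [derivative]
  rw [Ordinal.limitRecOn_add_one]

lemma derivative_limit (X : Type u) [TopologicalSpace X] (α : Ordinal.{u})
    (h : Order.IsSuccLimit α) : derivative X α = ⋂ (β : Ordinal.{u}) (_ : β < α),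
      derivative X β := by
  simp only [derivative]
  rw [Ordinal.limitRecOn_limit _ _ _ _ h]

/-! ### The example -/

/-- The index set: a well order of type `ω₁`. -/
abbrev W : Type := (ω_ 1 : Ordinal.{0}).ToType

/-- The rank of an element of `W`. -/
noncomputable def rk (b : W) : Ordinal.{0} := (Ordinal.ToType.toOrd b : Ordinal)

lemma rk_lt (b : W) : rk b < ω_ 1 := (Ordinal.ToType.toOrd b).2

lemma rk_lt_rk {a b : W} : rk a < rk b ↔ a < b := by
  simp [rk]

lemma rk_le_rk {a b : W} : rk a ≤ rk b ↔ a ≤ b := by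
  simp [rk]

lemma exists_rk {α : Ordinal.{0}} (h : α < ω_ 1) : ∃ b : W, rk b = α :=
  ⟨Ordinal.ToType.mk ⟨α, h⟩, by simp [rk]⟩

lemma mk_W : #W = ℵ₁ := by
  simp [W]

instance : Uncountable W := by
  rw [← Cardinal.aleph0_lt_mk_iff, mk_W]
  exact Cardinal.aleph0_lt_aleph_one

/-- The nodes: reversed sequences, so that the head is the last entry and first coordinates
increase along the list. -/
structure Nd : Type where
  l : List (W × W)
  ne : l ≠ []
  pw : l.Pairwise (fun a b => a.1 < b.1)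

lemma Nd.ext' {s t : Nd} (h : s.l = t.l) : s = t := by
  cases s; cases t; simp at h; subst h; rfl

/-- The last entry of the sequence. -/
def hd (s : Nd) : W × W := s.l.head s.ne

/-- Basic neighbourhoods. -/
def nb (s : Nd) (F : Finset (W × W)) : Set Nd := {t | t = s ∨ ∃ e, e ∉ F ∧ (e :: s.l) <:+ t.l}

lemma self_mem_nb (s : Nd) (F : Finset (W × W)) : s ∈ nb s F := Or.inl rfl

lemma nb_mono (s : Nd) {F G : Finset (W × W)} (h : F ⊆ G) : nb s G ⊆ nb s F := by
  rintro t (ht | ⟨e, he, ht⟩)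
  · exact Or.inl ht
  · exact Or.inr ⟨e, fun h' => he (h h'), ht⟩

lemma suffix_of_mem_nb {s t : Nd} {F : Finset (W × W)} (h : t ∈ nb s F) : s.l <:+ t.l := by
  rcases h with rfl | ⟨e, -, ht⟩
  · exact List.suffix_rfl
  · exact (List.suffix_cons e s.l).trans ht

instance : TopologicalSpace Nd where
  IsOpen V := ∀ s ∈ V, ∃ F : Finset (W × W), nb s F ⊆ V
  isOpen_univ := fun _ _ => ⟨∅, subset_univ _⟩
  isOpen_inter := by
    classical
    rintro V V' hV hV' s ⟨hs, hs'⟩
    obtain ⟨F, hF⟩ := hV s hs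
    obtain ⟨G, hG⟩ := hV' s hs'
    exact ⟨F ∪ G, subset_inter ((nb_mono s Finset.subset_union_left).trans hF)
      ((nb_mono s Finset.subset_union_right).trans hG)⟩
  isOpen_sUnion := by
    rintro S hS s ⟨V, hV, hs⟩
    obtain ⟨F, hF⟩ := hS V hV s hs
    exact ⟨F, hF.trans (subset_sUnion_of_mem hV)⟩

lemma isOpen_iff' (V : Set Nd) : IsOpen V ↔ ∀ s ∈ V, ∃ F : Finset (W × W), nb s F ⊆ V := Iff.rfl

lemma nb_empty_subset {s t : Nd} {F : Finset (W × W)} (h : t ∈ nb s F) (hne : t ≠ s) :
    ∀ r : Nd, t.l <:+ r.l → r ∈ nb s F := by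
  intro r hr
  rcases h with rfl | ⟨e, he, ht⟩
  · exact absurd rfl hne
  · exact Or.inr ⟨e, he, ht.trans hr⟩

lemma isOpen_nb (s : Nd) (F : Finset (W × W)) : IsOpen (nb s F) := by
  rw [isOpen_iff']
  intro t ht
  by_cases hts : t = s
  · subst hts
    exact ⟨F, Subset.rfl⟩
  · exact ⟨∅, fun r hr => nb_empty_subset ht hts r (suffix_of_mem_nb hr)⟩

/-- The cone of all extensions of a node. -/
def cone (r : Nd) : Set Nd := {t | r.l <:+ t.l}

lemma isClopen_cone (r : Nd) : IsClopen (cone r) := by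
  classical
  constructor
  · refine ⟨(isOpen_iff' _).2 fun t ht => ⟨r.l.toFinset, fun u hu hru => ?_⟩⟩
    have hru' : r.l <:+ u.l := hru
    have ht' : ¬ r.l <:+ t.l := ht
    rcases hu with rfl | ⟨e, he, hu⟩
    · exact ht' hru'
    · rw [List.mem_toFinset] at he
      rcases List.suffix_or_suffix_of_suffix hru' hu with h | h
      · rcases List.suffix_cons_iff.1 h with h | h
        · exact he (by rw [h]; exact List.mem_cons_self)
        · exact ht' h
      · exact he (h.subset List.mem_cons_self)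
  · exact (isOpen_iff' _).2 fun t ht => ⟨∅, fun u hu => ht.trans (suffix_of_mem_nb hu)⟩

/-- The discrete copy of the set of nodes. -/
structure Dn : Type where
  nd : Nd

instance : TopologicalSpace Dn := ⊥

instance : DiscreteTopology Dn := ⟨rfl⟩

/-- The embedding into `C_p` of the one-point compactification of a discrete space. -/
noncomputable def Phi (t : Nd) : OnePoint Dn → ℝ := fun k =>
  OnePoint.elim k 0 (indicator {r : Dn | r.nd.l <:+ t.l} 1)

lemma Phi_infty (t : Nd) : Phi t OnePoint.infty = 0 := rfl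

lemma Phi_coe_of (t : Nd) (r : Dn) (h : r.nd.l <:+ t.l) : Phi t (r : OnePoint Dn) = 1 := by
  unfold Phi
  rw [OnePoint.elim_some, indicator_of_mem (show r ∈ {r : Dn | r.nd.l <:+ t.l} from h)]
  rfl

lemma Phi_coe_not (t : Nd) (r : Dn) (h : ¬ r.nd.l <:+ t.l) : Phi t (r : OnePoint Dn) = 0 := by
  unfold Phi
  rw [OnePoint.elim_some, indicator_of_notMem (show r ∉ {r : Dn | r.nd.l <:+ t.l} from h)]

lemma finite_suffix (t : Nd) : {r : Nd | r.l <:+ t.l}.Finite := by
  have h : {l : List (W × W) | l <:+ t.l}.Finite := by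
    refine (List.finite_toSet t.l.tails).subset ?_
    intro l hl
    exact (List.mem_tails _ _).2 hl
  exact Finite.of_finite_image (f := Nd.l) (h.subset (by rintro _ ⟨r, hr, rfl⟩; exact hr))
    (fun a _ b _ hab => Nd.ext' hab)

lemma finite_suffix' (t : Nd) : {r : Dn | r.nd.l <:+ t.l}.Finite := by
  refine Finite.of_finite_image (f := Dn.nd) ((finite_suffix t).subset ?_) ?_
  · rintro _ ⟨r, hr, rfl⟩
    exact hr
  · rintro ⟨a⟩ _ ⟨b⟩ _ hab
    simp at hab
    rw [hab]

lemma continuous_Phi_apply (t : Nd) : Continuous (Phi t) := by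
  rw [OnePoint.continuous_iff_from_discrete, Phi_infty]
  refine tendsto_const_nhds.congr' ?_
  have h : ∀ᶠ r : Dn in cofinite, r ∉ {r : Dn | r.nd.l <:+ t.l} :=
    (finite_suffix' t).eventually_cofinite_notMem
  exact h.mono fun r hr => (Phi_coe_not t r hr).symm

lemma continuous_Phi : Continuous Phi := by
  classical
  refine continuous_pi fun k => ?_
  induction k using OnePoint.rec with
  | infty => exact continuous_const
  | coe r =>
    have h : (fun t => Phi t (r : OnePoint Dn)) = indicator (cone r.nd) 1 := by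
      ext t
      by_cases h : r.nd.l <:+ t.l
      · rw [Phi_coe_of t r h, indicator_of_mem (show t ∈ cone r.nd from h)]; rfl
      · rw [Phi_coe_not t r h, indicator_of_notMem (show t ∉ cone r.nd from h)]
    rw [h]
    exact IsClopen.continuous_indicator (isClopen_cone r.nd) continuous_one

lemma injective_Phi : Function.Injective Phi := by
  intro s t hst
  have h1 : s.l <:+ t.l := by
    by_contra h
    have h' := congrFun hst ((⟨s⟩ : Dn) : OnePoint Dn)
    rw [Phi_coe_of s ⟨s⟩ List.suffix_rfl, Phi_coe_not t ⟨s⟩ h] at h'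
    exact one_ne_zero h'
  have h2 : t.l <:+ s.l := by
    by_contra h
    have h' := congrFun hst ((⟨t⟩ : Dn) : OnePoint Dn)
    rw [Phi_coe_of t ⟨t⟩ List.suffix_rfl, Phi_coe_not s ⟨t⟩ h] at h'
    exact one_ne_zero h'.symm
  exact Nd.ext' (h1.eq_of_length_le h2.length_le)

lemma isEmbedding_Phi : IsEmbedding Phi := by
  refine ⟨isInducing_iff_nhds.2 fun s => le_antisymm
    (continuous_Phi.tendsto s).le_comap ?_, injective_Phi⟩
  intro V hV
  obtain ⟨O, hOV, hO, hsO⟩ := mem_nhds_iff.1 hV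
  obtain ⟨F, hF⟩ := hO s hsO
  let R : Set Dn := {r | ∃ e ∈ F, r.nd.l = e :: s.l}
  have hR : R.Finite := by
    refine Finite.of_finite_image (f := fun r : Dn => r.nd.l) ?_ ?_
    · refine (F.finite_toSet.image fun e => e :: s.l).subset ?_
      rintro _ ⟨r, ⟨e, he, hr⟩, rfl⟩
      exact ⟨e, he, hr.symm⟩
    · rintro ⟨a⟩ _ ⟨b⟩ _ hab
      have : a = b := Nd.ext' hab
      rw [this]
  have hsuf : ∀ r ∈ R, ¬ r.nd.l <:+ s.l := by
    rintro r ⟨e, -, hr⟩ h
    have := h.length_le
    rw [hr] at this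
    simp at this
  have h1 : {f : OnePoint Dn → ℝ | 1 / 2 < f ((⟨s⟩ : Dn) : OnePoint Dn)} ∈ 𝓝 (Phi s) := by
    refine (isOpen_lt continuous_const (continuous_apply _)).mem_nhds ?_
    show 1 / 2 < Phi s ((⟨s⟩ : Dn) : OnePoint Dn)
    rw [Phi_coe_of s ⟨s⟩ List.suffix_rfl]
    norm_num
  have h2 : (⋂ r ∈ R, {f : OnePoint Dn → ℝ | f (r : OnePoint Dn) < 1 / 2}) ∈ 𝓝 (Phi s) := by
    rw [biInter_mem hR]
    intro r hr
    refine (isOpen_lt (continuous_apply _) continuous_const).mem_nhds ?_
    show Phi s (r : OnePoint Dn) < 1 / 2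
    rw [Phi_coe_not s r (hsuf r hr)]
    norm_num
  refine ⟨_, inter_mem h1 h2, ?_⟩
  rintro t ⟨ht1, ht2⟩
  refine hOV (hF ?_)
  have hst : s.l <:+ t.l := by
    by_contra h
    have : 1 / 2 < Phi t ((⟨s⟩ : Dn) : OnePoint Dn) := ht1
    rw [Phi_coe_not t ⟨s⟩ h] at this
    norm_num at this
  obtain ⟨v, hv⟩ := hst
  rcases List.eq_nil_or_concat v with rfl | ⟨v', e, rfl⟩
  · left
    exact Nd.ext' (by simpa using hv.symm)
  · right
    have hsuf' : (e :: s.l) <:+ t.l := ⟨v', by rw [← hv]; simp⟩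
    refine ⟨e, fun he => ?_, hsuf'⟩
    let r : Dn := ⟨⟨e :: s.l, by simp, t.pw.sublist hsuf'.sublist⟩⟩
    have hr : r ∈ R := ⟨e, he, rfl⟩
    have h3 : Phi t (r : OnePoint Dn) < 1 / 2 := mem_iInter₂.1 ht2 r hr
    rw [Phi_coe_of t r hsuf'] at h3
    norm_num at h3

lemma t35 : T35Space Nd := by
  have : T35Space (OnePoint Dn → ℝ) := inferInstance
  exact isEmbedding_Phi.t35Space

lemma eberleinGrothendieck : EberleinGrothendieck Nd :=
  ⟨OnePoint Dn, inferInstance, inferInstance, inferInstance, Phi, continuous_Phi_apply,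
    isEmbedding_Phi⟩

lemma hereditarilyMetaLindelof : HereditarilyMetaLindelof Nd := by
  intro Y 𝒰 hU hcov
  have h1 : ∀ y : Y, ∃ U ∈ 𝒰, ∃ F : Finset (W × W), Subtype.val ⁻¹' (nb y.1 F) ⊆ U := by
    intro y
    have hy : y ∈ ⋃₀ 𝒰 := by rw [hcov]; trivial
    obtain ⟨U, hUU, hyU⟩ := hy
    obtain ⟨O, hO, rfl⟩ := isOpen_induced_iff.1 (hU U hUU)
    obtain ⟨F, hF⟩ := hO y.1 hyU
    exact ⟨_, hUU, F, preimage_mono hF⟩
  choose U hUU F hF using h1
  refine ⟨range fun y : Y => Subtype.val ⁻¹' (nb y.1 (F y)), ?_, ?_, ?_, ?_⟩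
  · rintro _ ⟨y, rfl⟩
    exact (isOpen_nb _ _).preimage continuous_subtype_val
  · refine eq_univ_of_forall fun y => ⟨_, ⟨y, rfl⟩, self_mem_nb _ _⟩
  · rintro _ ⟨y, rfl⟩
    exact ⟨U y, hUU y, hF y⟩
  · intro x
    have h2 : {y : Y | y.1.l <:+ x.1.l}.Finite :=
      Finite.of_finite_image (f := Subtype.val)
        ((finite_suffix x.1).subset (by rintro _ ⟨y, hy, rfl⟩; exact hy))
        (Subtype.val_injective.injOn)
    refine ((h2.image fun y : Y => (Subtype.val ⁻¹' (nb y.1 (F y)) : Set Y)).countable).mono ?_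
    rintro _ ⟨⟨y, rfl⟩, hxy⟩
    exact ⟨y, suffix_of_mem_nb hxy, rfl⟩

/-! ### Levels -/

/-- Proper extensions have smaller last coordinate. -/
lemma hd_lt {s t : Nd} (h : s.l <:+ t.l) (hne : t ≠ s) : (hd t).1 < (hd s).1 := by
  obtain ⟨v, hv⟩ := h
  have hv0 : v ≠ [] := by
    rintro rfl
    exact hne (Nd.ext' (by simpa using hv.symm))
  have h1 : hd t = v.head hv0 := by
    unfold hd
    simp only [← hv]
    rw [List.head_append_left hv0]
  have h2 := t.pw
  rw [← hv, List.pairwise_append] at h2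
  rw [h1]
  exact h2.2.2 _ (List.head_mem hv0) _ (List.head_mem s.ne)

lemma derivative_eq (α : Ordinal.{0}) : derivative Nd α = {s | α ≤ rk (hd s).1} := by
  classical
  induction α using Ordinal.limitRecOn with
  | zero =>
    rw [derivative_zero]
    ext s
    simp
  | add_one α ih =>
    rw [derivative_succ, ih]
    ext s
    constructor
    · rintro ⟨hs, h⟩
      obtain ⟨t, ht, hts, hne⟩ := h (nb s ∅) (isOpen_nb _ _) (self_mem_nb _ _)
      have h1 := hd_lt (suffix_of_mem_nb hts) hne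
      have h2 : α ≤ rk (hd t).1 := ht
      exact Order.add_one_le_of_lt (lt_of_le_of_lt h2 (rk_lt_rk.2 h1))
    · intro hs
      have hs' : α < rk (hd s).1 := lt_of_lt_of_le (Order.lt_add_one_iff.2 le_rfl) hs
      refine ⟨hs'.le, fun U hU hsU => ?_⟩
      obtain ⟨F, hF⟩ := hU s hsU
      obtain ⟨b, hb⟩ := exists_rk (hs'.trans (rk_lt _))
      obtain ⟨i, hi⟩ : ∃ i : W, (b, i) ∉ F := by
        by_contra hcon
        push Not at hcon
        have : (univ : Set W).Finite := by
          refine (F.finite_toSet.image Prod.snd).subset ?_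
          intro i _
          exact ⟨(b, i), hcon i, rfl⟩
        exact (infinite_univ (α := W)) this
      have hbs : b < (hd s).1 := by
        rw [← rk_lt_rk, hb]
        exact hs'
      have hpw : ((b, i) :: s.l).Pairwise (fun a b => a.1 < b.1) := by
        rw [List.pairwise_cons]
        refine ⟨fun a ha => ?_, s.pw⟩
        have hs2 := s.pw
        have hl : s.l = hd s :: s.l.tail := (List.cons_head_tail s.ne).symm
        rw [hl] at ha hs2
        rcases List.mem_cons.1 ha with rfl | ha'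
        · exact hbs
        · exact hbs.trans ((List.pairwise_cons.1 hs2).1 a ha')
      refine ⟨⟨(b, i) :: s.l, by simp, hpw⟩, ?_, hF (Or.inr ⟨(b, i), hi, List.suffix_rfl⟩), ?_⟩
      · show α ≤ rk (hd ⟨(b, i) :: s.l, _, _⟩).1
        simp [hd, hb]
      · intro h
        have := congrArg (fun r : Nd => r.l.length) h
        simp at this
  | limit α hα ih =>
    rw [derivative_limit _ _ hα]
    ext s
    rw [mem_iInter₂]
    constructor
    · intro h
      refine hα.isSuccPrelimit.le_iff_forall_le.2 ?_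
      intro β hβ
      have := h β hβ
      rw [ih β hβ] at this
      exact this
    · intro h β hβ
      rw [ih β hβ]
      exact hβ.le.trans h

lemma inLevel_iff (s : Nd) (α : Ordinal.{0}) : InLevel s α ↔ rk (hd s).1 = α := by
  unfold InLevel
  rw [derivative_eq, derivative_eq]
  constructor
  · rintro ⟨h1, h2⟩
    refine le_antisymm ?_ h1
    have : ¬ α + 1 ≤ rk (hd s).1 := h2
    exact Order.lt_add_one_iff.1 (not_le.1 this)
  · rintro rfl
    refine ⟨le_refl (rk (hd s).1), fun h => ?_⟩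
    have h' : rk (hd s).1 + 1 ≤ rk (hd s).1 := h
    exact absurd h' (not_le.2 (Order.lt_add_one_iff.2 le_rfl))

lemma scattered : Scattered Nd := by
  intro S hS
  obtain ⟨s, hs, hmin⟩ := WellFounded.has_min
    (InvImage.wf (fun s : Nd => rk (hd s).1) Ordinal.lt_wf) S hS
  refine ⟨s, hs, fun h => ?_⟩
  obtain ⟨t, ht, hts, hne⟩ := h.2 (nb s ∅) (isOpen_nb _ _) (self_mem_nb _ _)
  exact hmin t ht (rk_lt_rk.2 (hd_lt (suffix_of_mem_nb hts) hne))

/-- One-element sequences. -/
def single (e : W × W) : Nd := ⟨[e], by simp, by simp⟩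

lemma hasHeight : HasHeight Nd (ω_ 1) := by
  constructor
  · rw [derivative_eq, eq_empty_iff_forall_notMem]
    intro s hs
    exact absurd hs (not_le.2 (rk_lt _))
  · intro α hα
    obtain ⟨b, hb⟩ := exists_rk hα
    rw [derivative_eq, ← nonempty_iff_ne_empty]
    exact ⟨single (b, b), by
      show α ≤ rk (hd (single (b, b))).1
      simp [hd, single, hb]⟩

lemma mk_Nd : #Nd = ℵ₁ := by
  apply le_antisymm
  · have h1 : #Nd ≤ #(List (W × W)) := Cardinal.mk_le_of_injective (f := Nd.l) fun a b h => Nd.ext' h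
    refine h1.trans ?_
    rw [Cardinal.mk_list_eq_mk, Cardinal.mk_prod, mk_W]
    simp
  · have h1 : #W ≤ #Nd := Cardinal.mk_le_of_injective (f := fun w : W => single (w, w)) fun a b h => by
      have := congrArg Nd.l h
      simpa [single] using this
    rwa [mk_W] at h1

lemma exists_admissible : ∃ (U : Nd → Set Nd) (𝒱 : Set (Set Nd)), Admissible U 𝒱 := by
  refine ⟨fun s => nb s ∅, range fun s => nb s ∅, fun s => isOpen_nb _ _,
    fun s => self_mem_nb _ _, ?_, ?_, ?_, ?_, ?_⟩
  · intro x α hx y hy hyα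
    by_contra hne
    rw [inLevel_iff] at hx hyα
    have := rk_lt_rk.2 (hd_lt (suffix_of_mem_nb hy) hne)
    rw [hx, hyα] at this
    exact lt_irrefl _ this
  · rintro _ ⟨s, rfl⟩
    exact isOpen_nb _ _
  · exact eq_univ_of_forall fun y => ⟨_, ⟨y, rfl⟩, self_mem_nb _ _⟩
  · rintro _ ⟨s, rfl⟩
    exact ⟨s, Subset.rfl⟩
  · intro x
    refine (((finite_suffix x).image fun s => nb s ∅).countable).mono ?_
    rintro _ ⟨⟨s, rfl⟩, hx⟩
    exact ⟨s, suffix_of_mem_nb hx, rfl⟩

/-- For every admissible choice the poset has an uncountable antichain. -/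
lemma not_ccc (U : Nd → Set Nd) (𝒱 : Set (Set Nd)) (h : Admissible U 𝒱) : ¬ CCC 𝒱 := by
  classical
  intro hccc
  -- a node with successors
  have hlt : (0 : Ordinal.{0}) < ω_ 1 := Ordinal.omega_pos 1
  have hlt1 : (1 : Ordinal.{0}) < ω_ 1 := by
    have h1 : (1 : Ordinal.{0}) < ω := Ordinal.one_lt_omega0
    exact h1.trans Ordinal.omega0_lt_omega_one
  obtain ⟨b0, hb0⟩ := exists_rk hlt
  obtain ⟨b1, hb1⟩ := exists_rk hlt1
  have hb : b0 < b1 := by rw [← rk_lt_rk, hb0, hb1]; exact zero_lt_one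
  let s : Nd := single (b1, b1)
  have hs : s ∈ ⋃₀ 𝒱 := by rw [h.V_cover]; trivial
  obtain ⟨V, hV, hsV⟩ := hs
  obtain ⟨F, hF⟩ := h.V_open V hV s hsV
  let c : W → Nd := fun i => ⟨[(b0, i), (b1, b1)], by simp, by simp [hb]⟩
  have hc : ∀ i, (b0, i) ∉ F → c i ∈ V := fun i hi => hF (Or.inr ⟨(b0, i), hi, List.suffix_rfl⟩)
  have hcinj : Function.Injective c := fun i j hij => by
    have := congrArg Nd.l hij
    simpa [c] using this
  let A : Set (Finset Nd) := {p | ∃ i, (b0, i) ∉ F ∧ p = {c i}}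
  have hAcond : A ⊆ Cond 𝒱 := by
    rintro _ ⟨i, hi, rfl⟩ x hx
    rw [Finset.mem_singleton] at hx
    subst hx
    ext y
    constructor
    · rintro ⟨-, hy⟩
      simpa using hy
    · intro hy
      have : y = c i := hy
      subst this
      exact ⟨⟨V, ⟨hV, hc i hi⟩, hc i hi⟩, by simp⟩
  have hAanti : ∀ p ∈ A, ∀ q ∈ A, p ≠ q → ¬ Compat 𝒱 p q := by
    rintro _ ⟨i, hi, rfl⟩ _ ⟨j, hj, rfl⟩ hne ⟨r, hr, hir, hjr⟩
    have hi' : c i ∈ r := hir (by simp)
    have hj' : c j ∈ r := hjr (by simp)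
    have h1 := hr (c i) hi'
    have h2 : c j ∈ star 𝒱 (c i) ∩ (r : Set Nd) := ⟨⟨V, ⟨hV, hc i hi⟩, hc j hj⟩, hj'⟩
    rw [h1, mem_singleton_iff] at h2
    exact hne (by rw [h2])
  have hAc : A.Countable := hccc A hAcond hAanti
  have hI : {i : W | (b0, i) ∉ F}.Countable := by
    have : {i : W | (b0, i) ∉ F} ⊆ (fun i => ({c i} : Finset Nd)) ⁻¹' A := fun i hi => ⟨i, hi, rfl⟩
    refine (hAc.preimage ?_).mono this
    intro i j hij
    exact hcinj (Finset.singleton_injective hij)
  have hI' : {i : W | (b0, i) ∈ F}.Countable := by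
    refine ((F.finite_toSet.image Prod.snd).subset ?_).countable
    intro i hi
    exact ⟨(b0, i), hi, rfl⟩
  have : (univ : Set W).Countable := by
    refine (hI.union hI').mono fun i _ => ?_
    by_cases hi : (b0, i) ∈ F
    · exact Or.inr hi
    · exact Or.inl hi
  exact not_countable_univ this

/-- **The poset `P` need not be ccc.**  There is a Tychonoff, Eberlein-Grothendieck, hereditarily
meta-Lindelöf, scattered space whose height and cardinality are both `ω₁`, for which admissible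
choices `U`, `𝒱` exist, and for which `P` fails to be ccc for *every* admissible choice. -/
theorem result : ∃ (X : Type) (_ : TopologicalSpace X), T35Space X ∧ EberleinGrothendieck X ∧
    HereditarilyMetaLindelof X ∧ Scattered X ∧ HasHeight X (ω_ 1) ∧ #X = ℵ₁ ∧
    (∃ (U : X → Set X) (𝒱 : Set (Set X)), Admissible U 𝒱) ∧
    ∀ (U : X → Set X) (𝒱 : Set (Set X)), Admissible U 𝒱 → ¬ CCC 𝒱 :=
  ⟨Nd, inferInstance, t35, eberleinGrothendieck, hereditarilyMetaLindelof, scattered, hasHeight,
    mk_Nd, exists_admissible, not_ccc⟩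

end Pool.Agent.Results.MP_8301b4_gt.PosetNotCCC
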